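import Pool.Agent.Lib.MP_7682a8_an.KB.Iface

/-! Module OUT (helper9): lower bound in the outer annulus. -/

set_option autoImplicit false

open Metric Set MeasureTheory Filter
open scoped Topology

namespace Pool.Agent.Lib.MP_7682a8_an.KB.H9

noncomputable section

theorem circle_mem {r : ℝ} (h0 : 0 < r) (h1 : r < 1) (θ : ℝ) :
    circleMap 0 r θ ∈ ball (0 : ℂ) 1 \ {0} := by
  refine ⟨?_, ?_⟩
  · rw [mem_ball_zero_iff]
    simp [abs_of_pos h0, h1]
  · simp only [mem_singleton_iff]
    exact circleMap_ne_center h0.ne'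

theorem norm_circle {r : ℝ} (h0 : 0 < r) (θ : ℝ) : ‖circleMap 0 r θ‖ = r := by
  simp [abs_of_pos h0]

theorem cont_circle {F : ℂ → ℂ} (hF : ContinuousOn F (ball (0 : ℂ) 1 \ {0})) {r : ℝ} (h0 : 0 < r)
    (h1 : r < 1) : Continuous fun θ : ℝ => F (circleMap 0 r θ) :=
  hF.comp_continuous (continuous_circleMap 0 r) fun θ => circle_mem h0 h1 θ

theorem out (hCon : ConStmt) (hWnd : WndStmt) (hPwb : PwbStmt) : OutStmt := by
  intro h g δ ξ R ρ hO hB hS hR hRρ hρ
  obtain ⟨ca, cb, -, -, cJ, hle⟩ := hCon h g δ ξ hO hB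
  have key : ∀ r : ℝ, 0 < r → r < 1 →
      2 * Real.pi * (1 - 2 * r / (1 + r)) ≤ JJ h g δ ξ r := by
    intro r h0 h1
    have ca' := cont_circle ca h0 h1
    have cb' := cont_circle cb h0 h1
    have hW := hWnd h g δ ξ r hO hB h0 h1
    have cI : Continuous fun θ : ℝ =>
        aa h δ ξ (circleMap 0 r θ) - bb g δ ξ (circleMap 0 r θ) := ca'.sub cb'
    have hW' : ∫ θ in (0 : ℝ)..(2 * Real.pi),
        (aa h δ ξ (circleMap 0 r θ) - bb g δ ξ (circleMap 0 r θ)).re = 2 * Real.pi := by
      have := Complex.reCLM.intervalIntegral_comp_comm (μ := volume)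
        (cI.intervalIntegrable (μ := volume) 0 (2 * Real.pi))
      simp only [Complex.reCLM_apply] at this
      rw [this, hW]
      simp
    have hmono : ∫ θ in (0 : ℝ)..(2 * Real.pi), (1 - 2 * r / (1 + r) + 2 * ((1 - r) / (1 + r)) *
        ((aa h δ ξ (circleMap 0 r θ) - bb g δ ξ (circleMap 0 r θ)).re - 1)) ≤ JJ h g δ ξ r := by
      unfold JJ
      refine intervalIntegral.integral_mono_on (by positivity) ?_ ?_ ?_
      · refine Continuous.intervalIntegrable ?_ _ _
        exact continuous_const.add (continuous_const.mul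
          ((Complex.continuous_re.comp cI).sub continuous_const))
      · refine Continuous.intervalIntegrable ?_ _ _
        exact ((continuous_norm.comp ca').pow 2).sub ((continuous_norm.comp cb').pow 2)
      · intro θ _
        have hm := circle_mem h0 h1 θ
        have h2 := hle hS _ hm.1
        rw [norm_circle h0] at h2
        have h3 := hPwb _ _ r h0.le h1 h2
        simpa using h3
    have e1 : ∫ θ in (0 : ℝ)..(2 * Real.pi), (1 - 2 * r / (1 + r) + 2 * ((1 - r) / (1 + r)) *
        ((aa h δ ξ (circleMap 0 r θ) - bb g δ ξ (circleMap 0 r θ)).re - 1)) =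
        2 * Real.pi * (1 - 2 * r / (1 + r)) := by
      have i1 : IntervalIntegrable (fun θ : ℝ =>
          (aa h δ ξ (circleMap 0 r θ) - bb g δ ξ (circleMap 0 r θ)).re) volume 0
          (2 * Real.pi) := (Complex.continuous_re.comp cI).intervalIntegrable _ _
      rw [intervalIntegral.integral_add (by simp) ((i1.sub (by simp)).const_mul _),
        intervalIntegral.integral_const_mul, intervalIntegral.integral_sub i1 (by simp), hW']
      simp
      ring
    linarith
  -- integration
  have h1r : ∀ r ∈ Icc R ρ, 0 < r ∧ r < 1 := fun r hr =>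
    ⟨hR.trans_le hr.1, hr.2.trans_lt hρ⟩
  have uI : uIcc R ρ = Icc R ρ := uIcc_of_le hRρ
  have iJ : IntervalIntegrable (fun r => JJ h g δ ξ r / r) volume R ρ := by
    apply ContinuousOn.intervalIntegrable
    rw [uI]
    exact (cJ.mono fun r hr => h1r r hr).div continuousOn_id fun r hr => (h1r r hr).1.ne'
  have iL : ∀ r ∈ uIcc R ρ, HasDerivAt
      (fun r : ℝ => 2 * Real.pi * (Real.log r - 2 * Real.log (1 + r)))
      (2 * Real.pi * (1 - 2 * r / (1 + r)) / r) r := by
    intro r hr
    rw [uI] at hr
    obtain ⟨h0, h1⟩ := h1r r hr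
    have d1 := Real.hasDerivAt_log h0.ne'
    have d2 : HasDerivAt (fun r : ℝ => Real.log (1 + r)) (1 / (1 + r)) r := by
      have := ((hasDerivAt_id r).const_add 1).log (by simp only [id]; positivity)
      simpa using this
    have d3 := (d1.sub (d2.const_mul 2)).const_mul (2 * Real.pi)
    refine d3.congr_deriv ?_
    have : (1 : ℝ) + r ≠ 0 := by positivity
    field_simp
  have cL : ContinuousOn (fun r : ℝ => 2 * Real.pi * (1 - 2 * r / (1 + r)) / r) (uIcc R ρ) := by
    rw [uI]
    refine ContinuousOn.div ?_ continuousOn_id fun r hr => (h1r r hr).1.ne'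
    refine continuousOn_const.mul (continuousOn_const.sub ?_)
    refine ContinuousOn.div (by fun_prop) (by fun_prop) fun r hr => ?_
    have := (h1r r hr).1
    positivity
  have eL := intervalIntegral.integral_eq_sub_of_hasDerivAt iL cL.intervalIntegrable
  have hmono := intervalIntegral.integral_mono_on hRρ cL.intervalIntegrable iJ (fun r hr => by
    obtain ⟨h0, h1⟩ := h1r r hr
    exact div_le_div_of_nonneg_right (key r h0 h1) h0.le)
  rw [eL] at hmono
  refine le_trans (le_of_eq ?_) hmono
  have hρ0 : 0 < ρ := hR.trans_le hRρ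
  rw [Real.log_div hρ0.ne' hR.ne', Real.log_div (by positivity) (by positivity)]
  ring

end

end Pool.Agent.Lib.MP_7682a8_an.KB.H9
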