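import Pool.Agent.Lib.MP_7682a8_an.KB.Iface

/-! Module WND (helper9): the winding number. -/

set_option autoImplicit false

open Metric Set MeasureTheory Filter
open scoped Topology

namespace Pool.Agent.Lib.MP_7682a8_an.KB.H9

noncomputable section

theorem circle_mem_w {r : ℝ} (h0 : 0 < r) (h1 : r < 1) (θ : ℝ) :
    circleMap 0 r θ ∈ ball (0 : ℂ) 1 \ {0} := by
  refine ⟨?_, ?_⟩
  · rw [mem_ball_zero_iff]
    simp [abs_of_pos h0, h1]
  · simp only [mem_singleton_iff]
    exact circleMap_ne_center h0.ne'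

theorem norm_circle_w {r : ℝ} (h0 : 0 < r) (θ : ℝ) : ‖circleMap 0 r θ‖ = r := by
  simp [abs_of_pos h0]

theorem cont_circle_w {F : ℂ → ℂ} (hF : ContinuousOn F (ball (0 : ℂ) 1 \ {0})) {r : ℝ} (h0 : 0 < r)
    (h1 : r < 1) : Continuous fun θ : ℝ => F (circleMap 0 r θ) :=
  hF.comp_continuous (continuous_circleMap 0 r) fun θ => circle_mem_w h0 h1 θ

/-- Continuity of the circle means, clamped to `[c, d]`. -/
theorem cont_mean {F : ℂ → ℂ} (hF : ContinuousOn F (ball (0 : ℂ) 1 \ {0})) {c d : ℝ} (h0 : 0 < c)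
    (hcd : c ≤ d) (h1 : d < 1) :
    Continuous fun r : ℝ => ∫ θ in (0 : ℝ)..(2 * Real.pi), F (circleMap 0 (max c (min r d)) θ) := by
  apply intervalIntegral.continuous_parametric_intervalIntegral_of_continuous'
  refine hF.comp_continuous ?_ fun p => ?_
  · simp only [circleMap]
    fun_prop
  · refine circle_mem_w (h0.trans_le (le_max_left _ _)) (max_lt (hcd.trans_lt h1) ?_) _
    exact (min_le_right _ _).trans_lt h1

/-- A continuous function with values in `2πℤ` is constant. -/
theorem const_of_int {W : ℝ → ℂ} (hW : Continuous W)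
    (hn : ∀ r, ∃ n : ℤ, W r = 2 * Real.pi * n) (x y : ℝ) : W x = W y := by
  choose n hn using hn
  have h1 : Continuous fun r => (n r : ℝ) := by
    have h2 : (fun r => (n r : ℝ)) = fun r => (W r).re / (2 * Real.pi) := by
      funext r
      rw [hn r]
      have : (2 * (Real.pi : ℂ) * (n r : ℂ)).re = 2 * Real.pi * n r := by
        have h3 : (2 * (Real.pi : ℂ) * (n r : ℂ)) = ((2 * Real.pi * n r : ℝ) : ℂ) := by
          push_cast
          ring
        rw [h3, Complex.ofReal_re]
      rw [this]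
      have := Real.pi_pos
      field_simp
    rw [h2]
    exact (Complex.continuous_re.comp hW).div_const _
  have h2 : Continuous n := by
    exact Int.isClosedEmbedding_coe_real.isEmbedding.continuous_iff.mpr h1
  have h3 : n x = n y := PreconnectedSpace.constant inferInstance h2
  rw [hn x, hn y, h3]

theorem wnd (hQde : QdeStmt) (hCon : ConStmt) (hAsy : AsyStmt) : WndStmt := by
  intro h g δ ξ r hO hB h0 h1
  obtain ⟨ca, cb, -, hne, -, -⟩ := hCon h g δ ξ hO hB
  obtain ⟨-, la, lb⟩ := hAsy h g δ ξ hO hB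
  have hq := hQde h g δ ξ hO hB
  set F : ℂ → ℂ := fun z => aa h δ ξ z - bb g δ ξ z with hF
  have cF : ContinuousOn F (ball (0 : ℂ) 1 \ {0}) := ca.sub cb
  -- the value is in `2πℤ`
  have hint : ∀ s : ℝ, 0 < s → s < 1 → ∃ n : ℤ,
      ∫ θ in (0 : ℝ)..(2 * Real.pi), F (circleMap 0 s θ) = 2 * Real.pi * n := by
    intro s s0 s1
    have cFs := cont_circle_w cF s0 s1
    have dI : ∀ θ : ℝ, HasDerivAt (fun θ : ℝ => ∫ t in (0 : ℝ)..θ, F (circleMap 0 s t))
        (F (circleMap 0 s θ)) θ := fun θ =>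
      intervalIntegral.integral_hasDerivAt_right (cFs.intervalIntegrable _ _)
        cFs.stronglyMeasurable.stronglyMeasurableAtFilter cFs.continuousAt
    have dq : ∀ θ : ℝ, HasDerivAt (fun θ : ℝ => qq ξ (circleMap 0 s θ))
        (Complex.I * F (circleMap 0 s θ) * qq ξ (circleMap 0 s θ)) θ := by
      intro θ
      have hm := circle_mem_w s0 s1 θ
      have hz : circleMap 0 s θ ≠ 0 := hm.2
      have h2 := hq _ hm.1 hz
      have h3 := h2.comp_hasDerivAt θ (hasDerivAt_circleMap 0 s θ)
      refine h3.congr_deriv ?_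
      have hz' : starRingEnd ℂ (circleMap 0 s θ) ≠ 0 := by
        rw [Ne, map_eq_zero]
        exact hz
      simp only [wd, _root_.add_apply, _root_.smul_apply,
        ContinuousLinearMap.id_apply, smul_eq_mul, ContinuousLinearEquiv.coe_coe,
        Complex.conjCLE_apply, map_mul, Complex.conj_I, hF]
      field_simp
      ring
    set V : ℝ → ℂ := fun θ => qq ξ (circleMap 0 s θ) *
      Complex.exp (-(Complex.I * ∫ t in (0 : ℝ)..θ, F (circleMap 0 s t))) with hV
    have dV : ∀ θ : ℝ, HasDerivAt V 0 θ := by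
      intro θ
      have h2 := ((dI θ).const_mul Complex.I).fun_neg.cexp
      have h3 := (dq θ).mul h2
      refine h3.congr_deriv ?_
      ring
    have hVc : V (2 * Real.pi) = V 0 :=
      is_const_of_deriv_eq_zero (fun θ => (dV θ).differentiableAt) (fun θ => (dV θ).deriv) _ _
    have hper : circleMap 0 s (2 * Real.pi) = circleMap 0 s 0 := by
      have := periodic_circleMap 0 s 0
      simpa using this
    have hne0 : qq ξ (circleMap 0 s 0) ≠ 0 :=
      (hne _ (circle_mem_w s0 s1 0).1 (circle_mem_w s0 s1 0).2).2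
    simp only [hV, intervalIntegral.integral_same, mul_zero, neg_zero, Complex.exp_zero,
      hper] at hVc
    have h4 := mul_left_cancel₀ hne0 hVc
    rw [Complex.exp_eq_one_iff] at h4
    obtain ⟨n, hn⟩ := h4
    refine ⟨-n, ?_⟩
    have h5 := congrArg (fun w => Complex.I * w) hn
    have hI : Complex.I * Complex.I = -1 := Complex.I_mul_I
    push_cast
    linear_combination h5 +
      (n * (2 * Real.pi) + ∫ t in (0 : ℝ)..(2 * Real.pi), F (circleMap 0 s t)) * hI
  -- near zero the value is `2π`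
  have hnear : ∃ c : ℝ, 0 < c ∧ c < 1 ∧ ∀ s : ℝ, 0 < s → s ≤ c →
      ∫ θ in (0 : ℝ)..(2 * Real.pi), F (circleMap 0 s θ) = 2 * Real.pi := by
    have lF : Tendsto F (𝓝[≠] (0 : ℂ)) (𝓝 1) := by
      have := la.sub lb
      simpa using this
    rw [Metric.tendsto_nhdsWithin_nhds] at lF
    obtain ⟨e, he, hlF⟩ := lF (1 / 2) (by norm_num)
    refine ⟨min (e / 2) (1 / 2), by positivity, (min_le_right _ _).trans_lt (by norm_num), ?_⟩
    intro s s0 sc
    have s1 : s < 1 := (sc.trans (min_le_right _ _)).trans_lt (by norm_num)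
    have se : s < e := (sc.trans (min_le_left _ _)).trans_lt (by linarith)
    obtain ⟨n, hn⟩ := hint s s0 s1
    have cFs := cont_circle_w cF s0 s1
    have h2 : ‖(∫ θ in (0 : ℝ)..(2 * Real.pi), F (circleMap 0 s θ)) - 2 * Real.pi‖ ≤
        1 / 2 * |2 * Real.pi - 0| := by
      have e1 : (∫ θ in (0 : ℝ)..(2 * Real.pi), F (circleMap 0 s θ)) - 2 * Real.pi =
          ∫ θ in (0 : ℝ)..(2 * Real.pi), (F (circleMap 0 s θ) - 1) := by
        rw [intervalIntegral.integral_sub (cFs.intervalIntegrable _ _) (by simp)]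
        simp
      rw [e1]
      refine intervalIntegral.norm_integral_le_of_norm_le_const fun θ _ => ?_
      have h3 := hlF (x := circleMap 0 s θ) (circle_mem_w s0 s1 θ).2 (by
        rw [dist_zero_right, norm_circle_w s0]
        exact se)
      rw [dist_eq_norm] at h3
      exact h3.le
    rw [hn]
    rw [hn] at h2
    have hπ := Real.pi_pos
    have h3 : (2 * (Real.pi : ℂ) * (n : ℂ)) - 2 * Real.pi =
        ((2 * Real.pi * ((n : ℝ) - 1) : ℝ) : ℂ) := by
      push_cast
      ring
    rw [h3, Complex.norm_real, Real.norm_eq_abs, sub_zero, abs_mul,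
      abs_of_pos (by positivity : 0 < 2 * Real.pi)] at h2
    have h4 : |(n : ℝ) - 1| < 1 := by
      have : |(n : ℝ) - 1| ≤ 1 / 2 := by
        nlinarith
      linarith
    have h5 : |n - 1| < 1 := by
      exact_mod_cast h4
    have h6 : n - 1 = 0 := Int.abs_lt_one_iff.mp h5
    have h7 : n = 1 := by linarith
    rw [h7]
    simp
  obtain ⟨c, c0, c1, hc⟩ := hnear
  change ∫ θ in (0 : ℝ)..(2 * Real.pi), F (circleMap 0 r θ) = 2 * Real.pi
  have hcd : min c r ≤ r := min_le_right _ _
  have hm0 : 0 < min c r := lt_min c0 h0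
  have hW := cont_mean cF hm0 hcd h1
  have hWn : ∀ x : ℝ, ∃ n : ℤ, ∫ θ in (0 : ℝ)..(2 * Real.pi),
      F (circleMap 0 (max (min c r) (min x r)) θ) = 2 * Real.pi * n := fun x =>
    hint _ (hm0.trans_le (le_max_left _ _))
      (max_lt (hcd.trans_lt h1) ((min_le_right _ _).trans_lt h1))
  have h2 := const_of_int hW hWn r (min c r)
  have e1 : max (min c r) (min r r) = r := by
    rw [min_self, max_eq_right hcd]
  have e2 : max (min c r) (min (min c r) r) = min c r := by
    rw [min_eq_left hcd, max_self]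
  simp only [e1, e2] at h2
  rw [h2]
  exact hc _ hm0 (min_le_left _ _)

end

end Pool.Agent.Lib.MP_7682a8_an.KB.H9
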